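import Pool.Agent.Helper70.SUB.SheetR

set_option autoImplicit false

namespace Pool.Agent.Helper47.SUB

open Finset Pool.Agent.Helper70.SUB

theorem cheb_pair {m : ℕ} {τ : Type} [DecidableEq τ] (T : Fin m → Finset τ)
    (f : Fin m → τ → ℝ) (hf : ∀ h, ∀ t ∈ T h, |f h t| ≤ 1) (h0 : ∀ h, ∑ t ∈ T h, f h t = 0)
    (h h' : Fin m) :
    ∑ t ∈ Fintype.piFinset T, f h (t h) * f h' (t h') ≤ (if h = h' then ∏ j, ((T j).card : ℝ) else 0) := by
  classical
  have h1 : ∀ t : Fin m → τ, f h (t h) * f h' (t h')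
      = ∏ j, ((if j = h then f h (t j) else 1) * (if j = h' then f h' (t j) else 1)) := by
    intro t
    rw [Finset.prod_mul_distrib, Finset.prod_ite_eq' Finset.univ h (fun j => f h (t j)),
      Finset.prod_ite_eq' Finset.univ h' (fun j => f h' (t j))]
    simp
  rw [Finset.sum_congr rfl (fun t _ => h1 t)]
  have h2 := Finset.prod_univ_sum T (fun j x => (if j = h then f h x else 1) * (if j = h' then f h' x else (1 : ℝ)))
  rw [← h2]
  by_cases hh : h = h'
  · subst hh
    rw [if_pos rfl]
    refine Finset.prod_le_prod (fun j _ => ?_) (fun j _ => ?_)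
    · refine Finset.sum_nonneg (fun x _ => ?_)
      by_cases hj : j = h
      · rw [if_pos hj]; exact mul_self_nonneg _
      · rw [if_neg hj]; norm_num
    · have h3 : ∀ x ∈ T j, ((if j = h then f h x else 1) * (if j = h then f h x else (1 : ℝ))) ≤ 1 := by
        intro x hx
        by_cases hj : j = h
        · subst hj
          rw [if_pos rfl]
          have := hf j x hx
          rw [← abs_mul_abs_self]
          nlinarith [abs_nonneg (f j x)]
        · rw [if_neg hj]; norm_num
      have := Finset.sum_le_card_nsmul (T j) _ 1 h3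
      simpa using this
  · rw [if_neg hh]
    refine le_of_eq (Finset.prod_eq_zero (Finset.mem_univ h) ?_)
    rw [← h0 h]
    refine Finset.sum_congr rfl (fun x _ => ?_)
    rw [if_pos rfl, if_neg hh, mul_one]

theorem CHEB : ST_CHEB := by
  classical
  intro m τ _ T f e he hf h0
  rcases Nat.eq_zero_or_pos m with hm | hm
  · subst hm
    simp
  have hm' : (0 : ℝ) < m := by exact_mod_cast hm
  have h1 : ∑ t ∈ Fintype.piFinset T, (∑ h, f h (t h)) ^ 2 ≤ m * ∏ j, ((T j).card : ℝ) := by
    have h2 : ∀ t : Fin m → τ, (∑ h, f h (t h)) ^ 2 = ∑ h, ∑ h', f h (t h) * f h' (t h') := by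
      intro t
      rw [sq, Finset.sum_mul_sum]
    rw [Finset.sum_congr rfl (fun t _ => h2 t), Finset.sum_comm]
    have h3 : ∀ h ∈ (Finset.univ : Finset (Fin m)), ∑ t ∈ Fintype.piFinset T, ∑ h', f h (t h) * f h' (t h')
        ≤ ∏ j, ((T j).card : ℝ) := by
      intro h _
      rw [Finset.sum_comm]
      refine le_trans (Finset.sum_le_sum (fun h' _ => cheb_pair T f hf h0 h h')) ?_
      rw [Finset.sum_ite_eq]
      simp
    have := Finset.sum_le_card_nsmul _ _ _ h3
    simpa using this
  have h4 : (((Fintype.piFinset T).filter (fun t => e * m < |∑ h, f h (t h)|)).card : ℝ) * (e * m) ^ 2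
      ≤ ∑ t ∈ Fintype.piFinset T, (∑ h, f h (t h)) ^ 2 := by
    refine le_trans ?_ (Finset.sum_le_sum_of_subset_of_nonneg (Finset.filter_subset
      (fun t => e * m < |∑ h, f h (t h)|) _) (fun _ _ _ => sq_nonneg _))
    rw [← nsmul_eq_mul]
    refine Finset.card_nsmul_le_sum _ _ _ (fun t ht => ?_)
    rw [Finset.mem_filter] at ht
    rw [← sq_abs (∑ h, f h (t h))]
    exact pow_le_pow_left₀ (by positivity) (le_of_lt ht.2) 2
  have h5 := le_trans h4 h1
  have h6 : (((Fintype.piFinset T).filter (fun t => e * m < |∑ h, f h (t h)|)).card : ℝ) * (e ^ 2 * m) * m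
      ≤ (∏ j, ((T j).card : ℝ)) * m := by
    calc _ = (((Fintype.piFinset T).filter (fun t => e * m < |∑ h, f h (t h)|)).card : ℝ) * (e * m) ^ 2 := by ring
      _ ≤ _ := h5
      _ = _ := by ring
  exact le_of_mul_le_mul_right h6 hm'

theorem MEAN : ST_MEAN := by
  classical
  intro n r i hr
  have hn : 0 < n := lt_of_le_of_lt (Nat.zero_le _) i.2
  have hn' : (n : ℝ) ≠ 0 := by positivity
  have hr' : (r : ℝ) ≠ 0 := by positivity
  have hsym : ∀ i' : Fin n, ∑ j ∈ Finset.piAntidiag (Finset.univ : Finset (Fin n)) r, (j i' : ℝ)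
      = ∑ j ∈ Finset.piAntidiag (Finset.univ : Finset (Fin n)) r, (j i : ℝ) := by
    intro i'
    refine Finset.sum_bij (fun j _ => fun x => j (Equiv.swap i i' x)) ?_ ?_ ?_ ?_
    · intro j hj
      rw [Finset.mem_piAntidiag] at hj ⊢
      refine ⟨?_, fun _ _ => Finset.mem_univ _⟩
      rw [← hj.1]
      exact Equiv.sum_comp (Equiv.swap i i') j
    · intro j _ j' _ h
      funext x
      have := congrFun h (Equiv.swap i i' x)
      simpa using this
    · intro j hj
      refine ⟨fun x => j (Equiv.swap i i' x), ?_, ?_⟩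
      · rw [Finset.mem_piAntidiag] at hj ⊢
        refine ⟨?_, fun _ _ => Finset.mem_univ _⟩
        rw [← hj.1]
        exact Equiv.sum_comp (Equiv.swap i i') j
      · funext x
        simp
    · intro j _
      simp
  have htot : ∑ i' : Fin n, ∑ j ∈ Finset.piAntidiag (Finset.univ : Finset (Fin n)) r, (j i' : ℝ)
      = ((Finset.piAntidiag (Finset.univ : Finset (Fin n)) r).card : ℝ) * r := by
    rw [Finset.sum_comm]
    rw [← nsmul_eq_mul]
    refine Finset.sum_eq_card_nsmul (fun j hj => ?_)
    rw [Finset.mem_piAntidiag] at hj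
    exact_mod_cast hj.1
  rw [Finset.sum_congr rfl (fun i' _ => hsym i'), Finset.sum_const, Finset.card_univ, Fintype.card_fin,
    nsmul_eq_mul] at htot
  rw [Finset.sum_sub_distrib, Finset.sum_const, nsmul_eq_mul, ← Finset.sum_div]
  have : ∑ j ∈ Finset.piAntidiag (Finset.univ : Finset (Fin n)) r, (j i : ℝ)
      = ((Finset.piAntidiag (Finset.univ : Finset (Fin n)) r).card : ℝ) * r / n := by
    rw [eq_div_iff hn', ← htot, mul_comm]
  rw [this]
  field_simp
  ring

end Pool.Agent.Helper47.SUB
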