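import Pool.Agent.Helper70.SUB.SheetR

set_option autoImplicit false

namespace Pool.Agent.Helper47.SUB

open Finset Pool.Agent.Helper70.SUB

theorem prod_mono {σ A ι : Type} [CommRing A] (s : Finset ι) (f : ι → (σ →₀ ℕ)) (a : ι → A) :
    (∏ i ∈ s, MvPolynomial.monomial (f i) (a i)) = MvPolynomial.monomial (∑ i ∈ s, f i) (∏ i ∈ s, a i) := by
  classical
  induction s using Finset.induction_on with
  | empty => simp
  | insert i s hi ih =>
    rw [Finset.prod_insert hi, Finset.sum_insert hi, Finset.prod_insert hi, ih,
      MvPolynomial.monomial_mul]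

/-- coefficient of a product of binomials in separate variables -/
theorem coeff_prod_binom {σ A : Type} [Fintype σ] [DecidableEq σ] [CommRing A]
    (c : σ → A) (n : σ → ℕ) (J : σ →₀ ℕ) :
    MvPolynomial.coeff J (∏ s, (MvPolynomial.X s + MvPolynomial.C (c s)) ^ (n s))
      = ∏ s, (((n s).choose (J s) : ℕ) : A) * c s ^ (n s - J s) := by
  have h1 : ∀ s : σ, (MvPolynomial.X s + MvPolynomial.C (c s) : MvPolynomial σ A) ^ (n s)
      = ∑ k ∈ Finset.range (n s + 1),
        MvPolynomial.monomial (Finsupp.single s k) (((n s).choose k : A) * c s ^ (n s - k)) := by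
    intro s
    rw [add_pow]
    refine Finset.sum_congr rfl (fun k _ => ?_)
    rw [MvPolynomial.X_pow_eq_monomial, ← map_pow, ← map_natCast (MvPolynomial.C (σ := σ) (R := A)),
      mul_assoc, ← map_mul, mul_comm, MvPolynomial.C_mul_monomial, mul_one, mul_comm]
  have h2 : (∏ s, (MvPolynomial.X s + MvPolynomial.C (c s) : MvPolynomial σ A) ^ (n s))
      = ∑ k ∈ Fintype.piFinset (fun s => Finset.range (n s + 1)),
        MvPolynomial.monomial (∑ s, Finsupp.single s (k s))
          (∏ s, (((n s).choose (k s) : A) * c s ^ (n s - k s))) := by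
    rw [Finset.prod_congr rfl (fun s _ => h1 s), Finset.prod_univ_sum]
    exact Finset.sum_congr rfl (fun k _ => prod_mono _ _ _)
  have h3 : ∀ k : σ → ℕ, (∑ s, Finsupp.single s (k s) : σ →₀ ℕ) = Finsupp.equivFunOnFinite.symm k := by
    intro k
    ext t
    rw [Finsupp.finsetSum_apply]
    simp [Finsupp.single_apply]
  rw [h2, MvPolynomial.coeff_sum]
  have h4 : ∀ k ∈ Fintype.piFinset (fun s => Finset.range (n s + 1)),
      MvPolynomial.coeff J (MvPolynomial.monomial (∑ s, Finsupp.single s (k s))
          (∏ s, (((n s).choose (k s) : A) * c s ^ (n s - k s))))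
      = if k = (J : σ → ℕ) then ∏ s, (((n s).choose (J s) : A) * c s ^ (n s - J s)) else 0 := by
    intro k _
    rw [h3, MvPolynomial.coeff_monomial]
    by_cases hk : k = (J : σ → ℕ)
    · subst hk
      rw [if_pos rfl, if_pos (by ext t; rfl)]
    · rw [if_neg hk, if_neg]
      intro h
      apply hk
      rw [← h]
      rfl
  rw [Finset.sum_congr rfl h4, Finset.sum_ite_eq']
  by_cases hJ : (J : σ → ℕ) ∈ Fintype.piFinset (fun s => Finset.range (n s + 1))
  · rw [if_pos hJ]
  · rw [if_neg hJ]
    have : ∃ s, n s < J s := by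
      by_contra hcon
      push Not at hcon
      exact hJ (Fintype.mem_piFinset.2 (fun s => Finset.mem_range.2 (Nat.lt_succ_of_le (hcon s))))
    obtain ⟨s, hs⟩ := this
    symm
    refine Finset.prod_eq_zero (Finset.mem_univ s) ?_
    rw [Nat.choose_eq_zero_of_lt hs, Nat.cast_zero, zero_mul]

theorem hd_add {σ R : Type} [CommRing R] (P Q : MvPolynomial σ R) (J : σ →₀ ℕ) :
    hd J (P + Q) = hd J P + hd J Q := by
  unfold hd
  rw [map_add, MvPolynomial.coeff_add]

theorem hd_mono {σ R : Type} [Fintype σ] [DecidableEq σ] [CommRing R] (n J : σ →₀ ℕ) (a : R) :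
    hd J (MvPolynomial.monomial n a)
      = MvPolynomial.C a * ∏ s, (((n s).choose (J s) : ℕ) : MvPolynomial σ R) * MvPolynomial.X s ^ (n s - J s) := by
  unfold hd
  rw [MvPolynomial.aeval_monomial, Finsupp.prod_fintype _ _ (fun s => pow_zero _)]
  have : (algebraMap R (MvPolynomial σ (MvPolynomial σ R))) a = MvPolynomial.C (MvPolynomial.C a) := rfl
  rw [this, MvPolynomial.coeff_C_mul, coeff_prod_binom]

theorem hd_coeff {σ R : Type} [Fintype σ] [DecidableEq σ] [CommRing R]
    (P : MvPolynomial σ R) (I J : σ →₀ ℕ) :
    (hd J P).coeff I = (∏ s, ((I s + J s).choose (J s) : R)) * P.coeff (I + J) := by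
  induction P using MvPolynomial.induction_on' with
  | monomial n a =>
    rw [hd_mono, MvPolynomial.coeff_C_mul, MvPolynomial.coeff_monomial]
    have h1 : (∏ s, (((n s).choose (J s) : ℕ) : MvPolynomial σ R) * MvPolynomial.X s ^ (n s - J s))
        = MvPolynomial.monomial (∑ s, Finsupp.single s (n s - J s)) (∏ s, ((n s).choose (J s) : R)) := by
      rw [← prod_mono]
      refine Finset.prod_congr rfl (fun s _ => ?_)
      rw [MvPolynomial.X_pow_eq_monomial, ← map_natCast (MvPolynomial.C (σ := σ) (R := R)),
        MvPolynomial.C_mul_monomial, mul_one]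
    have h3 : (∑ s, Finsupp.single s (n s - J s) : σ →₀ ℕ) = n - J := by
      ext t
      rw [Finsupp.finsetSum_apply, Finset.sum_eq_single t]
      · rw [Finsupp.single_eq_same]
        rfl
      · intro b _ hb
        exact Finsupp.single_eq_of_ne' hb
      · intro h
        exact absurd (Finset.mem_univ t) h
    rw [h1, h3, MvPolynomial.coeff_monomial]
    by_cases h : n = I + J
    · subst h
      rw [if_pos (by ext s; simp), if_pos rfl, mul_comm]
      rfl
    · rw [if_neg h, mul_zero]
      by_cases h' : n - J = I
      · rw [if_pos h']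
        have : ∃ s, n s < J s := by
          by_contra hcon
          push Not at hcon
          apply h
          ext s
          have := hcon s
          rw [← h']
          simp only [Finsupp.coe_add, Finsupp.coe_tsub, Pi.add_apply, Pi.sub_apply]
          omega
        obtain ⟨s, hs⟩ := this
        rw [Finset.prod_eq_zero (Finset.mem_univ s), mul_zero]
        rw [Nat.choose_eq_zero_of_lt hs, Nat.cast_zero]
      · rw [if_neg h', mul_zero]
  | add P Q hP hQ =>
    rw [hd_add, MvPolynomial.coeff_add, MvPolynomial.coeff_add, hP, hQ, mul_add]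

theorem HD : ST_HD := by
  intro σ R _ _ _
  refine ⟨hd_coeff, fun P Q J => hd_add P Q J, ?_, ?_, ?_, ?_, ?_, ?_, ?_⟩
  · intro P Q J
    unfold hd
    rw [map_mul, MvPolynomial.coeff_mul]
  · intro P α J
    have h1 : hd J (shf α P) = MvPolynomial.coeff J (MvPolynomial.aeval
        (fun s => MvPolynomial.X s + MvPolynomial.C (MvPolynomial.X s + MvPolynomial.C (α s))) P :
          MvPolynomial σ (MvPolynomial σ R)) := by
      unfold hd shf
      rw [← AlgHom.comp_apply, MvPolynomial.comp_aeval]
      have : (fun s => (MvPolynomial.aeval (R := R) (fun s : σ => (MvPolynomial.X s + MvPolynomial.C (MvPolynomial.X s) : MvPolynomial σ (MvPolynomial σ R))))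
          (MvPolynomial.X s + MvPolynomial.C (α s)))
          = (fun s => MvPolynomial.X s + MvPolynomial.C (MvPolynomial.X s + MvPolynomial.C (α s))) := by
        funext s
        rw [map_add, MvPolynomial.aeval_X, MvPolynomial.aeval_C, map_add, add_assoc]
        rfl
      rw [this]
    have h2 : shf α (hd J P) = MvPolynomial.coeff J (MvPolynomial.map (shf α).toRingHom (MvPolynomial.aeval
        (fun s => MvPolynomial.X s + MvPolynomial.C (MvPolynomial.X s)) P :
          MvPolynomial σ (MvPolynomial σ R))) := by
      rw [MvPolynomial.coeff_map]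
      rfl
    rw [h1, h2]
    clear h1 h2
    congr 1
    induction P using MvPolynomial.induction_on with
    | C a =>
      rw [MvPolynomial.aeval_C, MvPolynomial.aeval_C]
      have : (algebraMap R (MvPolynomial σ (MvPolynomial σ R))) a = MvPolynomial.C (MvPolynomial.C a) := rfl
      rw [this, MvPolynomial.map_C]
      congr 1
      unfold shf
      exact MvPolynomial.aeval_C _ _
    | add p q hp hq => rw [map_add, map_add, map_add, hp, hq]
    | mul_X p s hp =>
      rw [map_mul, map_mul, map_mul, hp, MvPolynomial.aeval_X, MvPolynomial.aeval_X, map_add,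
        MvPolynomial.map_X, MvPolynomial.map_C]
      congr 3
      unfold shf
      exact MvPolynomial.aeval_X _ _
  · intro P α J
    have h2 : MvPolynomial.eval α (hd J P) = MvPolynomial.coeff J (MvPolynomial.map (MvPolynomial.eval α) (MvPolynomial.aeval
        (fun s => MvPolynomial.X s + MvPolynomial.C (MvPolynomial.X s)) P :
          MvPolynomial σ (MvPolynomial σ R))) := by
      rw [MvPolynomial.coeff_map]
      rfl
    rw [h2]
    clear h2
    congr 1
    unfold shf
    induction P using MvPolynomial.induction_on with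
    | C a =>
      rw [MvPolynomial.aeval_C, MvPolynomial.aeval_C]
      have : (algebraMap R (MvPolynomial σ (MvPolynomial σ R))) a = MvPolynomial.C (MvPolynomial.C a) := rfl
      rw [this, MvPolynomial.map_C, MvPolynomial.eval_C]
      rfl
    | add p q hp hq => rw [map_add, map_add, map_add, hp, hq]
    | mul_X p s hp =>
      rw [map_mul, map_mul, map_mul, hp, MvPolynomial.aeval_X, MvPolynomial.aeval_X, map_add,
        MvPolynomial.map_X, MvPolynomial.map_C, MvPolynomial.eval_X]
  · intro P
    ext I
    rw [hd_coeff]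
    simp
  · intro P J J'
    ext I
    rw [MvPolynomial.coeff_C_mul, hd_coeff, hd_coeff, hd_coeff, ← mul_assoc, ← mul_assoc,
      ← Finset.prod_mul_distrib, ← Finset.prod_mul_distrib, add_assoc]
    congr 1
    refine Finset.prod_congr rfl (fun s _ => ?_)
    rw [← Nat.cast_mul, ← Nat.cast_mul]
    congr 1
    have h := Nat.choose_mul (n := I s + (J s + J' s)) (k := J s + J' s) (s := J' s) (by omega)
    have e1 : I s + (J s + J' s) - J' s = I s + J s := by omega
    have e2 : J s + J' s - J' s = J s := by omega
    rw [e1, e2] at h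
    simp only [Finsupp.coe_add, Pi.add_apply]
    have e3 : (J s + J' s).choose (J s) = (J s + J' s).choose (J' s) := Nat.choose_symm_add
    rw [e3, add_assoc, mul_comm ((J s + J' s).choose (J' s)), h, mul_comm]
  · intro P J s
    rw [MvPolynomial.degreeOf_le_iff]
    intro I hI
    have h1 : P.coeff (I + J) ≠ 0 := by
      intro h
      apply MvPolynomial.mem_support_iff.1 hI
      rw [hd_coeff, h, mul_zero]
    have h2 := MvPolynomial.degreeOf_le_iff.1 (le_refl (P.degreeOf s)) (I + J)
      (MvPolynomial.mem_support_iff.2 h1)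
    simp only [Finsupp.coe_add, Pi.add_apply] at h2
    omega
  · intro P J
    ext I
    unfold toQ
    rw [MvPolynomial.coeff_map, hd_coeff, hd_coeff, MvPolynomial.coeff_map, map_mul, map_prod]
    congr 1

end Pool.Agent.Helper47.SUB
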