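import Pool.Agent.Helper47.SUB.HD

set_option autoImplicit false

namespace Pool.Agent.Helper47.SUB

open Finset Pool.Agent.Helper70.SUB

theorem l1_sup {σ : Type} (P : MvPolynomial σ ℤ) (T : Finset (σ →₀ ℕ)) (h : P.support ⊆ T) :
    l1 P = ∑ J ∈ T, |P.coeff J| := by
  unfold l1
  refine Finset.sum_subset h (fun J _ hJ => ?_)
  rw [MvPolynomial.notMem_support_iff.1 hJ, abs_zero]

theorem l1_nn {σ : Type} (P : MvPolynomial σ ℤ) : 0 ≤ l1 P := Finset.sum_nonneg (fun _ _ => abs_nonneg _)

theorem l1_add {σ : Type} [DecidableEq σ] (P Q : MvPolynomial σ ℤ) : l1 (P + Q) ≤ l1 P + l1 Q := by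
  have hT : (P + Q).support ⊆ P.support ∪ Q.support := MvPolynomial.support_add
  rw [l1_sup (P + Q) _ hT, l1_sup P _ Finset.subset_union_left, l1_sup Q _ Finset.subset_union_right,
    ← Finset.sum_add_distrib]
  refine Finset.sum_le_sum (fun J _ => ?_)
  rw [MvPolynomial.coeff_add]
  exact abs_add_le _ _

theorem l1_zero {σ : Type} : l1 (0 : MvPolynomial σ ℤ) = 0 := by
  unfold l1
  simp

theorem l1_sum {σ ι : Type} [DecidableEq σ] (s : Finset ι) (f : ι → MvPolynomial σ ℤ) :
    l1 (∑ i ∈ s, f i) ≤ ∑ i ∈ s, l1 (f i) := by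
  classical
  induction s using Finset.induction_on with
  | empty => simp [l1_zero]
  | insert i s hi ih =>
    rw [Finset.sum_insert hi, Finset.sum_insert hi]
    exact le_trans (l1_add _ _) (by linarith)

theorem l1_monomial_mul {σ : Type} [DecidableEq σ] (I : σ →₀ ℕ) (a : ℤ) (Q : MvPolynomial σ ℤ) :
    l1 (MvPolynomial.monomial I a * Q) ≤ |a| * l1 Q := by
  have hT : (MvPolynomial.monomial I a * Q).support ⊆ Q.support.image (fun J => I + J) := by
    intro K hK
    have h := MvPolynomial.support_mul _ _ hK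
    rw [Finset.mem_add] at h
    obtain ⟨I', hI', J, hJ, rfl⟩ := h
    have := MvPolynomial.support_monomial_subset hI'
    rw [Finset.mem_singleton] at this
    subst this
    exact Finset.mem_image.2 ⟨J, hJ, rfl⟩
  rw [l1_sup _ _ hT, Finset.sum_image (fun x _ y _ h => add_left_cancel h)]
  unfold l1
  rw [Finset.mul_sum]
  refine Finset.sum_le_sum (fun J _ => ?_)
  rw [MvPolynomial.coeff_monomial_mul, abs_mul]

theorem l1_mul {σ : Type} [DecidableEq σ] (P Q : MvPolynomial σ ℤ) : l1 (P * Q) ≤ l1 P * l1 Q := by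
  have h : P * Q = ∑ I ∈ P.support, MvPolynomial.monomial I (P.coeff I) * Q := by
    rw [← Finset.sum_mul, ← MvPolynomial.as_sum]
  rw [h]
  refine le_trans (l1_sum _ _) ?_
  refine le_trans (Finset.sum_le_sum (fun I _ => l1_monomial_mul I (P.coeff I) Q)) ?_
  rw [← Finset.sum_mul]
  exact le_refl _

theorem l1_C {σ : Type} [DecidableEq σ] (a : ℤ) : l1 (MvPolynomial.C a : MvPolynomial σ ℤ) = |a| := by
  have hT : (MvPolynomial.C a : MvPolynomial σ ℤ).support ⊆ {0} := by
    rw [← MvPolynomial.monomial_zero']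
    exact MvPolynomial.support_monomial_subset
  rw [l1_sup _ _ hT, Finset.sum_singleton]
  rw [MvPolynomial.coeff_zero_C]

theorem l1_prod {σ ι : Type} [DecidableEq σ] (s : Finset ι) (f : ι → MvPolynomial σ ℤ) (H : ℤ)
    (hf : ∀ i ∈ s, l1 (f i) ≤ H) : l1 (∏ i ∈ s, f i) ≤ H ^ s.card := by
  classical
  induction s using Finset.induction_on with
  | empty =>
    rw [Finset.prod_empty, Finset.card_empty, pow_zero, ← MvPolynomial.C_1, l1_C, abs_one]
  | insert i s hi ih =>
    rw [Finset.prod_insert hi, Finset.card_insert_of_notMem hi, pow_succ, mul_comm (H ^ s.card)]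
    refine le_trans (l1_mul _ _) ?_
    have h0 := l1_nn (f i)
    have h1 := hf i (Finset.mem_insert_self _ _)
    refine mul_le_mul h1 (ih (fun j hj => hf j (Finset.mem_insert_of_mem hj))) (l1_nn _) (le_trans h0 h1)

theorem L1 : ST_L1 := by
  intro σ _ _
  refine ⟨l1_mul, l1_add, ?_, ?_, ?_, ?_⟩
  · intro P J
    by_cases hJ : J ∈ P.support
    · exact Finset.single_le_sum (f := fun J => |P.coeff J|) (fun _ _ => abs_nonneg _) hJ
    · rw [MvPolynomial.notMem_support_iff.1 hJ, abs_zero]
      exact l1_nn P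
  · intro P r H hr hH
    have hH0 : 0 ≤ H := le_trans (abs_nonneg _) (hH 0)
    unfold l1
    have h1 : ∑ J ∈ P.support, |P.coeff J| ≤ (P.support.card : ℤ) * H := by
      have := Finset.sum_le_card_nsmul P.support (fun J => |P.coeff J|) H (fun J _ => hH J)
      simpa [nsmul_eq_mul] using this
    refine le_trans h1 (mul_le_mul_of_nonneg_right ?_ hH0)
    have h2 : P.support.card ≤ (Fintype.piFinset (fun s => Finset.range (r s + 1))).card := by
      refine Finset.card_le_card_of_injOn (fun J => (J : σ → ℕ)) ?_ (fun x _ y _ h => DFunLike.coe_injective h)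
      intro J hJ
      rw [Finset.mem_coe] at hJ ⊢
      rw [Fintype.mem_piFinset]
      intro s
      have := MvPolynomial.degreeOf_le_iff.1 (hr s) J hJ
      exact Finset.mem_range.2 (Nat.lt_succ_of_le this)
    rw [Fintype.card_piFinset] at h2
    have h3 : (∏ s, (Finset.range (r s + 1)).card) ≤ 2 ^ (∑ s, r s) := by
      rw [← Finset.prod_pow_eq_pow_sum]
      refine Finset.prod_le_prod' (fun s _ => ?_)
      rw [Finset.card_range]
      exact Nat.lt_two_pow_self
    exact_mod_cast le_trans h2 h3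
  · intro P r J hr
    unfold l1
    rw [Finset.mul_sum]
    have h1 : ∀ I ∈ (hd J P).support, |(hd J P).coeff I| ≤ 2 ^ (∑ s, r s) * |P.coeff (I + J)| := by
      intro I hI
      have hne : P.coeff (I + J) ≠ 0 := by
        intro h
        apply MvPolynomial.mem_support_iff.1 hI
        rw [hd_coeff, h, mul_zero]
      rw [hd_coeff, abs_mul]
      refine mul_le_mul_of_nonneg_right ?_ (abs_nonneg _)
      have h2 : (∏ s, ((I s + J s).choose (J s) : ℤ)) = ((∏ s, (I s + J s).choose (J s) : ℕ) : ℤ) := by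
        push_cast
        rfl
      rw [h2, Nat.abs_cast]
      have h3 : (∏ s, (I s + J s).choose (J s)) ≤ 2 ^ (∑ s, r s) := by
        rw [← Finset.prod_pow_eq_pow_sum]
        refine Finset.prod_le_prod' (fun s _ => ?_)
        have h4 := MvPolynomial.degreeOf_le_iff.1 (hr s) (I + J) (MvPolynomial.mem_support_iff.2 hne)
        refine le_trans (Nat.choose_le_two_pow _ _) (Nat.pow_le_pow_right (by norm_num) h4)
      exact_mod_cast h3
    refine le_trans (Finset.sum_le_sum h1) ?_
    have h5 : ∑ I ∈ (hd J P).support, 2 ^ (∑ s, r s) * |P.coeff (I + J)|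
        = ∑ K ∈ (hd J P).support.image (fun I => I + J), 2 ^ (∑ s, r s) * |P.coeff K| := by
      rw [Finset.sum_image (fun x _ y _ h => add_right_cancel h)]
    rw [h5]
    refine Finset.sum_le_sum_of_subset_of_nonneg ?_ (fun _ _ _ => by positivity)
    intro K hK
    obtain ⟨I, hI, rfl⟩ := Finset.mem_image.1 hK
    rw [MvPolynomial.mem_support_iff] at hI ⊢
    intro h
    apply hI
    rw [hd_coeff, h, mul_zero]
  · intro k M H hM
    rw [Matrix.det_apply]
    refine le_trans (l1_sum _ _) ?_
    have h1 : ∀ τ ∈ (Finset.univ : Finset (Equiv.Perm (Fin k))),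
        l1 (Equiv.Perm.sign τ • ∏ i, M (τ i) i) ≤ H ^ k := by
      intro τ _
      have h2 : (Equiv.Perm.sign τ • ∏ i, M (τ i) i) = MvPolynomial.C ((Equiv.Perm.sign τ : ℤˣ) : ℤ) * ∏ i, M (τ i) i := by
        rw [Units.smul_def, zsmul_eq_mul]
        rfl
      rw [h2]
      refine le_trans (l1_mul _ _) ?_
      rw [l1_C]
      have h3 : |((Equiv.Perm.sign τ : ℤˣ) : ℤ)| = 1 := by
        rcases Int.units_eq_one_or (Equiv.Perm.sign τ) with h | h <;> rw [h] <;> simp
      rw [h3, one_mul]
      have := l1_prod (Finset.univ : Finset (Fin k)) (fun i => M (τ i) i) H (fun i _ => hM _ _)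
      simpa using this
    have h4 := Finset.sum_le_card_nsmul _ _ _ h1
    rw [Finset.card_univ, Fintype.card_perm, Fintype.card_fin, nsmul_eq_mul] at h4
    exact h4

end Pool.Agent.Helper47.SUB
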